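import Pool.Agent.Helper8.TNG.Stmts

/-!
# Row ER: erasing the letters outside `T`
-/

namespace Pool.Agent.Helper8.TNG

section

variable {α : Type} [DecidableEq α]

omit [DecidableEq α] in
/-- Insert `a` at position `n`. -/
def ER_i (a : α) (n : ℕ) (v : List α) : List α := v.take n ++ a :: v.drop n

theorem ER_erase (a : α) (u u' : List α) (h : a ∉ u) : (u ++ a :: u').erase a = u ++ u' := by
  rw [List.erase_append_right _ h, List.erase_cons_head]

theorem ER_idx (a : α) (u u' : List α) (h : a ∉ u) : (u ++ a :: u').idxOf a = u.length := by
  rw [List.idxOf_append_of_notMem h, List.idxOf_cons_self, add_zero]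

open Classical in
theorem ER_card (hw : ST_WC) (T : Finset α) (a : α) (ha : a ∉ T) (Q : List α → Prop) :
    ((Wd (insert a T)).filter (fun w => Q (w.erase a))).card =
      (T.card + 1) * ((Wd T).filter Q).card := by
  rw [← Finset.card_range (T.card + 1), ← Finset.card_product]
  refine Finset.card_bij' (fun w _ => (w.idxOf a, w.erase a)) (fun x _ => ER_i a x.1 x.2)
    ?_ ?_ ?_ ?_
  · intro w hwS
    rw [Finset.mem_filter, (hw α _).1] at hwS
    obtain ⟨⟨h1, h2⟩, h3⟩ := hwS
    have haw : a ∈ w := (h2 a).2 (Finset.mem_insert_self _ _)
    have hmem : w.erase a ∈ Wd T := by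
      rw [(hw α _).1]
      refine ⟨h1.erase a, fun r => ?_⟩
      rw [h1.mem_erase_iff, h2, Finset.mem_insert]
      constructor
      · rintro ⟨h4, h5 | h5⟩
        · exact absurd h5 h4
        · exact h5
      · intro h4
        exact ⟨fun h5 => ha (h5 ▸ h4), Or.inr h4⟩
    have hlen : (w.erase a).length = T.card := by
      rw [(hw α _).1] at hmem
      have h6 : (w.erase a).toFinset = T := by
        ext r
        rw [List.mem_toFinset, hmem.2]
      rw [← h6, List.toFinset_card_of_nodup hmem.1]
    have hlen2 : w.length = T.card + 1 := by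
      rw [← hlen, List.length_erase_of_mem haw]
      have := List.length_pos_of_mem haw
      omega
    simp only [Finset.mem_product, Finset.mem_range, Finset.mem_filter]
    refine ⟨?_, hmem, h3⟩
    rw [← hlen2]
    exact List.idxOf_lt_length_iff.2 haw
  · rintro ⟨n, v⟩ hx
    simp only [Finset.mem_product, Finset.mem_range, Finset.mem_filter] at hx
    obtain ⟨hn, hv, hQ⟩ := hx
    have hv' := ((hw α _).1 v).1 hv
    have hav : a ∉ v := fun h => ha ((hv'.2 a).1 h)
    have hat : a ∉ v.take n := fun h => hav (List.mem_of_mem_take h)
    have hperm : (ER_i a n v).Perm (a :: v) := by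
      have h4 : (a :: v) = a :: (v.take n ++ v.drop n) := by rw [List.take_append_drop]
      rw [h4]
      exact List.perm_middle
    rw [Finset.mem_filter, (hw α _).1]
    refine ⟨⟨?_, fun r => ?_⟩, ?_⟩
    · rw [hperm.nodup_iff, List.nodup_cons]
      exact ⟨hav, hv'.1⟩
    · rw [hperm.mem_iff, List.mem_cons, hv'.2, Finset.mem_insert]
    · have h5 : (ER_i a n v).erase a = v := by
        unfold ER_i
        rw [ER_erase a _ _ hat, List.take_append_drop]
      change Q ((ER_i a n v).erase a)
      rw [h5]
      exact hQ
  · intro w hwS
    rw [Finset.mem_filter, (hw α _).1] at hwS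
    obtain ⟨⟨h1, h2⟩, -⟩ := hwS
    have haw : a ∈ w := (h2 a).2 (Finset.mem_insert_self _ _)
    obtain ⟨u, u', rfl⟩ := List.append_of_mem haw
    have hau : a ∉ u := by
      intro h
      exact (List.nodup_append.1 h1).2.2 a h a (by simp) rfl
    change ER_i a ((u ++ a :: u').idxOf a) ((u ++ a :: u').erase a) = _
    rw [ER_idx a u u' hau, ER_erase a u u' hau]
    unfold ER_i
    rw [List.take_left, List.drop_left]
  · rintro ⟨n, v⟩ hx
    simp only [Finset.mem_product, Finset.mem_range, Finset.mem_filter] at hx
    obtain ⟨hn, hv, hQ⟩ := hx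
    have hv' := ((hw α _).1 v).1 hv
    have hav : a ∉ v := fun h => ha ((hv'.2 a).1 h)
    have hat : a ∉ v.take n := fun h => hav (List.mem_of_mem_take h)
    have hlen : v.length = T.card := by
      have h6 : v.toFinset = T := by
        ext r
        rw [List.mem_toFinset, hv'.2]
      rw [← h6, List.toFinset_card_of_nodup hv'.1]
    have h5 : (ER_i a n v).erase a = v := by
      unfold ER_i
      rw [ER_erase a _ _ hat, List.take_append_drop]
    have h6 : (ER_i a n v).idxOf a = n := by
      unfold ER_i
      rw [ER_idx a _ _ hat, List.length_take, hlen]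
      omega
    exact Prod.ext h6 h5

theorem ER_step (hw : ST_WC) (T : Finset α) (a : α) (ha : a ∉ T) (Q : List α → Prop) :
    pr (insert a T) (fun w => Q (w.erase a)) = pr T Q := by
  unfold pr
  rw [ER_card hw T a ha Q, Finset.card_insert_of_notMem ha, Nat.factorial_succ]
  push_cast
  have h1 : ((T.card : ℝ) + 1) ≠ 0 := by positivity
  have h2 : (T.card.factorial : ℝ) ≠ 0 := by
    rw [Nat.cast_ne_zero]
    exact Nat.factorial_ne_zero _
  field_simp

open Classical in
theorem ER_congr (S : Finset α) (Q R : List α → Prop) (h : ∀ w ∈ Wd S, (Q w ↔ R w)) :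
    pr S Q = pr S R := by
  unfold pr
  rw [Finset.filter_congr h]

end

theorem st_ER (hw : ST_WC) : ST_ER := by
  intro α _ S T Q hTS
  have key : ∀ U : Finset α, Disjoint T U →
      pr (T ∪ U) (fun w => Q (w.filter (fun p => decide (p ∈ T)))) = pr T Q := by
    intro U
    induction U using Finset.induction_on with
    | empty =>
      intro _
      rw [Finset.union_empty]
      refine ER_congr T _ _ fun w hwT => ?_
      rw [(hw α _).1] at hwT
      have h1 : w.filter (fun p => decide (p ∈ T)) = w := by
        rw [List.filter_eq_self]
        intro r hr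
        rw [decide_eq_true_iff]
        exact (hwT.2 r).1 hr
      rw [h1]
    | insert a U haU ih =>
      intro hd
      rw [Finset.disjoint_insert_right] at hd
      have h1 : a ∉ T ∪ U := by
        rw [Finset.mem_union]
        rintro (h | h)
        · exact hd.1 h
        · exact haU h
      rw [Finset.union_insert, ← ih hd.2,
        ← ER_step hw (T ∪ U) a h1 (fun w => Q (w.filter (fun p => decide (p ∈ T))))]
      refine ER_congr _ _ _ fun w _ => ?_
      have h2 : w.filter (fun p => decide (p ∈ T)) =
          (w.erase a).filter (fun p => decide (p ∈ T)) := by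
        clear * - hd
        have ha : a ∉ T := hd.1
        induction w with
        | nil => rfl
        | cons b w ihw =>
          by_cases hb : b = a
          · subst hb
            rw [List.erase_cons_head, List.filter_cons_of_neg (by simpa using ha)]
          · rw [List.erase_cons_tail (by simpa using hb)]
            by_cases hbT : b ∈ T
            · rw [List.filter_cons_of_pos (by simpa using hbT),
                List.filter_cons_of_pos (by simpa using hbT), ihw]
            · rw [List.filter_cons_of_neg (by simpa using hbT),
                List.filter_cons_of_neg (by simpa using hbT), ihw]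
      show Q (w.filter (fun p => decide (p ∈ T))) ↔
        Q ((w.erase a).filter (fun p => decide (p ∈ T)))
      rw [h2]
  have h1 := key (S \ T) Finset.disjoint_sdiff
  rwa [Finset.union_sdiff_of_subset hTS] at h1

end Pool.Agent.Helper8.TNG
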